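import Pool.Agent.ER.Hard
import Pool.Agent.ER.GapSys
import Pool.Agent.ER.Rat

/-!
# Project HD: Hadamard decomposition of matrices

Definitions: the decision problem, the rows of the matrices.
-/

set_option autoImplicit false

namespace Pool.Agent.Q230.HD

open Pool.Agent.NPC Pool.Agent.NPC.ER Matrix

/-! ### The decision problem -/

/-- The entry `(i, j)` of a matrix given as the list of its rows. -/
def ent (A : List (List ℚ)) (i j : ℕ) : ℚ := (A.getD i []).getD j 0

/-- The number of columns. -/
def width (A : List (List ℚ)) : ℕ := (A.headD []).length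

/-- The real matrix given by a list of rows. -/
noncomputable def mat (A : List (List ℚ)) : Matrix (Fin A.length) (Fin (width A)) ℝ :=
  fun i j => (ent A i j : ℝ)

/-- A valid input: a rational matrix, given as the list of its rows, all of the same length, and
two natural numbers. -/
def IsInput (x : List (List ℚ) × ℕ × ℕ) : Prop := ∀ r ∈ x.1, r.length = width x.1

/-- **Hadamard decomposition.** For a rational matrix `M` and numbers `k₁`, `k₂`: are there real
matrices `M₁`, `M₂` of rank `k₁` and `k₂` whose entrywise product is `M`? -/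
def HDP (x : List (List ℚ) × ℕ × ℕ) : Prop :=
  IsInput x ∧ ∃ M₁ M₂ : Matrix (Fin x.1.length) (Fin (width x.1)) ℝ,
    M₁.rank = x.2.1 ∧ M₂.rank = x.2.2 ∧ ∀ i j, mat x.1 i j = M₁ i j * M₂ i j

/-! ### Sparse rows -/

/-- A row of a matrix whose columns are the pairs `(a, l)` of a block `a < R` and a coordinate
`l < K`: a list of triples `(a, l, c)`, where `c` is the entry in the column `(a, l)`. The first
triple for a column counts; the other entries are zero. -/
abbrev Row := List (ℕ × ℕ × ℚ)

/-- the entry of a row in the column `(a, l)` -/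
def cf : Row → ℕ → ℕ → ℚ
  | [], _, _ => 0
  | t :: x, a, l => if t.1 = a ∧ t.2.1 = l then t.2.2 else cf x a l

/-- the block `a` of a row as a real vector -/
noncomputable def bv (K : ℕ) (x : Row) (a : ℕ) : Fin K → ℝ := fun l => (cf x a l : ℝ)

/-- The `m × n` matrix with the entries `f i j`. -/
def tab (m n : ℕ) (f : ℕ → ℕ → ℚ) : List (List ℚ) :=
  (List.range m).map fun i => (List.range n).map fun j => f i j

/-- The instance with `R` blocks of `K` columns: the column `(a, l)` has the number `a * K + l`;
the ranks are `R` and `K`. -/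
def inst (R K : ℕ) (rows : List Row) : List (List ℚ) × ℕ × ℕ :=
  (tab rows.length (R * K) fun i j => cf (rows.getD i []) (j / K) (j % K), R, K)

/-- The rows have a decomposition of ranks at most `R` and `K`. -/
def Dec (R K : ℕ) (rows : List Row) : Prop :=
  ∃ (α : Row → Fin R → ℝ) (p : Row → Fin K → ℝ) (β : Fin R → Fin K → Fin R → ℝ)
    (q : Fin R → Fin K → Fin K → ℝ),
    ∀ x ∈ rows, ∀ (a : Fin R) (l : Fin K), bv K x a l = (α x ⬝ᵥ β a l) * (p x ⬝ᵥ q a l)

/-- There are invertible matrices `B a`, one for each block, such that for each row `x` the vectors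
`B a x_a` are multiples of one vector. -/
def Par (R K : ℕ) (rows : List Row) : Prop :=
  ∃ B : ℕ → Matrix (Fin K) (Fin K) ℝ, (∀ a < R, IsUnit (B a)) ∧
    ∀ x ∈ rows, ∃ v : Fin K → ℝ, ∀ a < R, ∃ s : ℝ, B a *ᵥ bv K x a = s • v

/-- The unit rows. -/
def rowsU (R K : ℕ) : List Row :=
  (List.range R).flatMap fun a => (List.range K).map fun l => [(a, l, 1)]

/-- The sums of two unit rows of the same block. -/
def rowsP (R K : ℕ) : List Row :=
  (List.range R).flatMap fun a => (List.range K).flatMap fun l =>
    (List.range K).map fun l' => [(a, l, 1), (a, l', 1)]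

/-! ### The intermediate problem -/

/-- A linear constraint `(r, p, L, s)`: `m r p = ∑ c * m r t` over the `(t, c)` in `L`; the number
`s` is the sum of the coefficients. -/
abbrev LC := ℕ × ℕ × List (ℕ × ℚ) × ℚ

/-- A ratio constraint `(r, r', i, j)`: `m r i * m r' j = m r j * m r' i`. -/
abbrev RC := ℕ × ℕ × ℕ × ℕ

/-- validity of a linear constraint for `D` registers with `K` coordinates -/
def LOK (D K : ℕ) (c : LC) : Prop :=
  c.1 < D ∧ c.2.1 < K ∧ (∀ u ∈ c.2.2.1, u.1 < K ∧ u.1 ≠ c.2.1) ∧
    (c.2.2.1.map Prod.fst).Nodup ∧ c.2.2.1 ≠ [] ∧ c.2.2.2 = (c.2.2.1.map Prod.snd).sum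

/-- validity of a ratio constraint -/
def ROK (D K : ℕ) (c : RC) : Prop :=
  c.1 < D ∧ c.2.1 < D ∧ c.2.2.1 < K ∧ c.2.2.2 < K ∧ c.2.2.1 ≠ c.2.2.2

/-- the linear constraint holds -/
def LH (m : ℕ → ℕ → ℝ) (c : LC) : Prop :=
  m c.1 c.2.1 = (c.2.2.1.map fun u => (u.2 : ℝ) * m c.1 u.1).sum

/-- the ratio constraint holds -/
def RH (m : ℕ → ℕ → ℝ) (c : RC) : Prop :=
  m c.1 c.2.2.1 * m c.2.1 c.2.2.2 = m c.1 c.2.2.2 * m c.2.1 c.2.2.1

/-- The intermediate problem: nonzero numbers `m r t`, for `D` registers `r` and `K` coordinates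
`t`, with linear constraints within registers and equations between ratios. -/
def Prob (D K : ℕ) (Ls : List LC) (Rs : List RC) : Prop :=
  ∃ m : ℕ → ℕ → ℝ, (∀ r < D, ∀ t < K, m r t ≠ 0) ∧ (∀ c ∈ Ls, LH m c) ∧ ∀ c ∈ Rs, RH m c

/-! ### The rows of the intermediate problem

The blocks are: the reference block `0`; the diagonal blocks `1 + r`, `r < D`; the shear blocks
`1 + D + s`, `s` the number of a linear constraint. -/

/-- The rows that make the register `r` diagonal. -/
def rowsD (D K : ℕ) : List Row :=
  (List.range D).flatMap fun r => (List.range K).map fun t => [(0, t, 1), (1 + r, t, 1)]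

/-- the coefficient of `t` -/
def cof : List (ℕ × ℚ) → ℕ → ℚ
  | [], _ => 0
  | u :: L, t => if u.1 = t then u.2 else cof L t

/-- The rows of a linear constraint with the shear block `a`: the vectors `f_t = e_t + c_t e_p`
(`f_p = e_p`) are eigenvectors, and the last row is the constraint. -/
def rowsL (K : ℕ) (c : LC) (a : ℕ) : List Row :=
  ((List.range K).map fun t =>
    [(0, t, 1), (0, c.2.1, cof c.2.2.1 t), (a, t, 1), (a, c.2.1, cof c.2.2.1 t)]) ++
  [(c.2.2.1.map fun u => (a, u.1, 1)) ++ [(a, c.2.1, c.2.2.2)] ++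
    (c.2.2.1.map fun u => (1 + c.1, u.1, 1)) ++ [(1 + c.1, c.2.1, 1)]]

/-- The row of a ratio constraint. -/
def rowR (c : RC) : Row :=
  [(1 + c.1, c.2.2.1, 1), (1 + c.1, c.2.2.2, 1), (1 + c.2.1, c.2.2.1, 1), (1 + c.2.1, c.2.2.2, 1)]

/-- All rows. -/
def rws (D K : ℕ) (Ls : List LC) (Rs : List RC) : List Row :=
  rowsU (1 + D + Ls.length) K ++ rowsP (1 + D + Ls.length) K ++ rowsD D K ++
    Ls.zipIdx.flatMap (fun q => rowsL K q.1 (1 + D + q.2)) ++ Rs.map rowR

/-! ### Systems of constraints -/

/-- the new name of a variable of a system -/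
def ri (T : List Con) (i : ℕ) : ℕ := (svars T).idxOf i

/-- the first coordinate of the block of the `t`-th constraint -/
def pos (T : List Con) (t : ℕ) : ℕ := 1 + (svars T).length + 4 * t

/-- The linear constraints of the `t`-th constraint of a system. The coordinate `0` is the unit,
`1 + i` is the variable with the name `i`, `pos T t + 0, 1, 2` are copies of the three variables and
`pos T t + 3` is the product of the first two. The register `0` holds the values, the register
`1 + t` is used for the product. -/
def lcs (T : List Con) (c : Con) (t : ℕ) : List LC :=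
  match c with
  | ER.Con.one i => [(0, 1 + ri T i, [(0, 9 / 8)], 9 / 8)]
  | ER.Con.add i j k => [(0, pos T t, [(1 + ri T i, 1)], 1), (0, pos T t + 1, [(1 + ri T j, 1)], 1),
      (0, pos T t + 2, [(1 + ri T k, 1)], 1),
      (0, pos T t + 2, [(pos T t, 1), (pos T t + 1, 1), (0, -1)], 1)]
  | ER.Con.mul i j k => [(0, pos T t, [(1 + ri T i, 1)], 1), (0, pos T t + 1, [(1 + ri T j, 1)], 1),
      (0, pos T t + 2, [(1 + ri T k, 1)], 1),
      (0, pos T t + 3, [(pos T t, 1), (pos T t + 1, 1), (pos T t + 2, 1), (0, -2)], 1),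
      (1 + t, pos T t + 1, [(0, 1)], 1), (1 + t, pos T t + 3, [(pos T t, 1)], 1)]

/-- The ratio constraints of the `t`-th constraint of a system. -/
def rcs (T : List Con) (c : Con) (t : ℕ) : List RC :=
  match c with
  | ER.Con.one _ => []
  | ER.Con.add _ _ _ => []
  | ER.Con.mul _ _ _ => [(0, 1 + t, 0, pos T t), (0, 1 + t, pos T t + 1, pos T t + 3)]

/-- the linear constraints of a system -/
def lsys (T : List Con) : List LC := T.zipIdx.flatMap fun p => lcs T p.1 p.2

/-- the ratio constraints of a system -/
def rsys (T : List Con) : List RC := T.zipIdx.flatMap fun p => rcs T p.1 p.2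

/-- the number of registers -/
def nD (T : List Con) : ℕ := 1 + T.length

/-- the number of blocks -/
def nR (T : List Con) : ℕ := 1 + nD T + (lsys T).length

/-- the number of coordinates: those that are used, and so many more that there are more
coordinates than blocks -/
def nK (T : List Con) : ℕ := pos T T.length + nR T

/-- The reduction. -/
def red (S : List Con) : List (List ℚ) × ℕ × ℕ :=
  inst (nR (bsys S)) (nK (bsys S))
    (rws (nD (bsys S)) (nK (bsys S)) (lsys (bsys S)) (rsys (bsys S)))

end Pool.Agent.Q230.HD
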