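import Pool.Agent.Q230.HD.St

/-!
# Project HD: assembly
-/

set_option autoImplicit false

namespace Pool.Agent.Q230.HD

open Pool.Agent.NPC Pool.Agent.NPC.ER Matrix

theorem mem_rws_U {D K : ℕ} {Ls : List LC} {Rs : List RC} :
    ∀ x ∈ rowsU (1 + D + Ls.length) K, x ∈ rws D K Ls Rs := by
  intro x hx
  unfold rws
  simp only [List.mem_append]
  exact Or.inl (Or.inl (Or.inl (Or.inl hx)))

theorem mem_rws_P {D K : ℕ} {Ls : List LC} {Rs : List RC} :
    ∀ x ∈ rowsP (1 + D + Ls.length) K, x ∈ rws D K Ls Rs := by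
  intro x hx
  unfold rws
  simp only [List.mem_append]
  exact Or.inl (Or.inl (Or.inl (Or.inr hx)))

/-- The intermediate problem and the instance. -/
theorem prob_iff (hA : S_A) (hB : S_B) (hC : S_C) (hD : S_D) (hE : S_E) {D K : ℕ} {Ls : List LC}
    {Rs : List RC} (hL : ∀ c ∈ Ls, LOK D K c) (hR : ∀ c ∈ Rs, ROK D K c)
    (hK : 1 + D + Ls.length < K) :
    Prob D K Ls Rs ↔ HDP (inst (1 + D + Ls.length) K (rws D K Ls Rs)) := by
  constructor
  · intro h
    exact hC _ _ _ (by omega) (by omega) mem_rws_U (hE D K Ls Rs hL hR h)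
  · intro h
    exact hD D K Ls Rs hL hR (hB _ _ _ (by omega) hK mem_rws_U mem_rws_P (hA _ _ _ h))

theorem red_iff (hA : S_A) (hB : S_B) (hC : S_C) (hD : S_D) (hE : S_E) (hF : S_F)
    (S : List Con) : Sat S ↔ HDP (red S) := by
  rw [hF.2 S]
  have h := hF.1 (bsys S)
  refine prob_iff hA hB hC hD hE h.1 h.2 ?_
  unfold nK nR pos
  omega

end Pool.Agent.Q230.HD
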