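import Pool.Agent.Q230.HD.St
import Pool.Agent.H78R3.TSV.Time

/-!
# Project HD: polynomial time
-/

set_option autoImplicit false

namespace Pool.Agent.Q230.HD

open Pool.Agent.NPC Pool.Agent.NPC.ER

section

variable {α : Type} [TEnc α]

abbrev P {β : Type} [TEnc β] (f : α → β) : Prop := Pool.Agent.NPC.Poly f

theorem kst {β : Type} [TEnc β] (b : β) : P (fun _ : α => b) := Pool.Agent.NPC.Poly.const b

theorem poly_tab {M K : α → ℕ} {f : α → ℕ → ℕ → ℚ} (hM : UPoly M) (hK : UPoly K)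
    (hf : P (fun p : α × ℕ × ℕ => f p.1 p.2.1 p.2.2)) :
    P (fun a => tab (M a) (K a) (f a)) := by
  unfold tab
  refine Pool.Agent.NPC.Poly.map (F := fun (a : α) (i : ℕ) =>
    (List.range (K a)).map fun j => f a i j) hM.range ?_
  refine Pool.Agent.NPC.Poly.map (F := fun (p : α × ℕ) (j : ℕ) => f p.1 p.2 j)
    (hK.range.comp (Poly.fst Poly.id)) ?_
  exact hf.comp (g := fun p : α × ℕ × ℕ => f p.1 p.2.1 p.2.2)
    (f := fun q : (α × ℕ) × ℕ => (q.1.1, q.1.2, q.2))
    (Poly.pair (Poly.fst (Poly.fst Poly.id)) (Poly.pair (Poly.snd (Poly.fst Poly.id))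
      (Poly.snd Poly.id)))

theorem one1 {β : Type} [TEnc β] {f : α → β} (hf : P f) : P (fun a => [f a]) :=
  Poly.cons hf (kst [])

theorem trp {β γ δ : Type} [TEnc β] [TEnc γ] [TEnc δ] {f : α → β} {g : α → γ} {h : α → δ}
    (hf : P f) (hg : P g) (hh : P h) : P (fun a => (f a, g a, h a)) :=
  Poly.pair hf (Poly.pair hg hh)

theorem cf_eq (x : Row) (a l : ℕ) :
    cf x a l = ((x.filter fun t => decide (t.1 = a) && decide (t.2.1 = l)).getD 0 (0, 0, 0)).2.2 := by
  induction x with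
  | nil => rfl
  | cons t x ih =>
    unfold cf
    by_cases h : t.1 = a ∧ t.2.1 = l
    · rw [if_pos h, List.filter_cons_of_pos (by simp [h.1, h.2])]
      rfl
    · rw [if_neg h, ih, List.filter_cons_of_neg]
      simp only [Bool.and_eq_true, decide_eq_true_eq]
      exact h

theorem cof_eq (L : List (ℕ × ℚ)) (t : ℕ) :
    cof L t = ((L.filter fun u => decide (u.1 = t)).getD 0 (0, 0)).2 := by
  induction L with
  | nil => rfl
  | cons u L ih =>
    unfold cof
    by_cases h : u.1 = t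
    · rw [if_pos h, List.filter_cons_of_pos (by simp [h])]
      rfl
    · rw [if_neg h, ih, List.filter_cons_of_neg]
      simp only [decide_eq_true_eq]
      exact h

theorem poly_cf {x : α → Row} {a l : α → ℕ} (hx : P x) (ha : P a) (hl : P l) :
    P (fun s => cf (x s) (a s) (l s)) := by
  refine Poly.congr (f := fun s => (((x s).filter fun t => decide (t.1 = a s) &&
    decide (t.2.1 = l s)).getD 0 (0, 0, 0)).2.2) ?_ fun s => (cf_eq _ _ _).symm
  refine Poly.snd (Poly.snd (Poly.getD ?_ (kst 0) (kst (0, 0, 0))))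
  refine Poly.filter (p := fun (s : α) (t : ℕ × ℕ × ℚ) => decide (t.1 = a s) &&
    decide (t.2.1 = l s)) hx ?_
  exact Poly.and (Poly.decide_eq (Poly.fst (Poly.snd Poly.id)) (ha.comp (Poly.fst Poly.id)))
    (Poly.decide_eq (Poly.fst (Poly.snd (Poly.snd Poly.id))) (hl.comp (Poly.fst Poly.id)))

theorem poly_cof {L : α → List (ℕ × ℚ)} {t : α → ℕ} (hL : P L) (ht : P t) :
    P (fun s => cof (L s) (t s)) := by
  refine Poly.congr (f := fun s => (((L s).filter fun u => decide (u.1 = t s)).getD 0 (0, 0)).2) ?_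
    fun s => (cof_eq _ _).symm
  refine Poly.snd (Poly.getD ?_ (kst 0) (kst (0, 0)))
  refine Poly.filter (p := fun (s : α) (u : ℕ × ℚ) => decide (u.1 = t s)) hL ?_
  exact Poly.decide_eq (Poly.fst (Poly.snd Poly.id)) (ht.comp (Poly.fst Poly.id))

/-! ### The rows -/

theorem poly_rowsU {R K : α → ℕ} (hR : UPoly R) (hK : UPoly K) :
    P (fun s => rowsU (R s) (K s)) := by
  unfold rowsU
  refine Poly.flatMap (F := fun (s : α) (a : ℕ) => (List.range (K s)).map fun l =>
    [(a, l, (1 : ℚ))]) hR.range ?_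
  refine Pool.Agent.NPC.Poly.map (F := fun (p : α × ℕ) (l : ℕ) => [(p.2, l, (1 : ℚ))])
    (hK.range.comp (Poly.fst Poly.id)) ?_
  exact one1 (trp (Poly.snd (Poly.fst Poly.id)) (Poly.snd Poly.id) (kst 1))

theorem poly_rowsP {R K : α → ℕ} (hR : UPoly R) (hK : UPoly K) :
    P (fun s => rowsP (R s) (K s)) := by
  unfold rowsP
  refine Poly.flatMap (F := fun (s : α) (a : ℕ) => (List.range (K s)).flatMap fun l =>
    (List.range (K s)).map fun l' => [(a, l, (1 : ℚ)), (a, l', 1)]) hR.range ?_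
  refine Poly.flatMap (F := fun (p : α × ℕ) (l : ℕ) => (List.range (K p.1)).map fun l' =>
    [(p.2, l, (1 : ℚ)), (p.2, l', 1)]) (hK.range.comp (Poly.fst Poly.id)) ?_
  refine Pool.Agent.NPC.Poly.map (F := fun (p : (α × ℕ) × ℕ) (l' : ℕ) => [(p.1.2, p.2, (1 : ℚ)), (p.1.2, l', 1)])
    (hK.range.comp (Poly.fst (Poly.fst Poly.id))) ?_
  exact Poly.cons (trp (Poly.snd (Poly.fst (Poly.fst Poly.id))) (Poly.snd (Poly.fst Poly.id))
    (kst 1)) (one1 (trp (Poly.snd (Poly.fst (Poly.fst Poly.id))) (Poly.snd Poly.id) (kst 1)))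

theorem poly_rowsD {D K : α → ℕ} (hD : UPoly D) (hK : UPoly K) :
    P (fun s => rowsD (D s) (K s)) := by
  unfold rowsD
  refine Poly.flatMap (F := fun (s : α) (r : ℕ) => (List.range (K s)).map fun t =>
    [(0, t, (1 : ℚ)), (1 + r, t, 1)]) hD.range ?_
  refine Pool.Agent.NPC.Poly.map (F := fun (p : α × ℕ) (t : ℕ) => [(0, t, (1 : ℚ)), (1 + p.2, t, 1)])
    (hK.range.comp (Poly.fst Poly.id)) ?_
  exact Poly.cons (trp (kst 0) (Poly.snd Poly.id) (kst 1))
    (one1 (trp (Poly.add (kst 1) (Poly.snd (Poly.fst Poly.id))) (Poly.snd Poly.id) (kst 1)))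

theorem poly_rowsL {K a : α → ℕ} {c : α → LC} (hK : UPoly K) (hc : P c) (ha : P a) :
    P (fun s => rowsL (K s) (c s) (a s)) := by
  have hr : P (fun s => (c s).1) := Poly.fst hc
  have hp : P (fun s => (c s).2.1) := Poly.fst (Poly.snd hc)
  have hL : P (fun s => (c s).2.2.1) := Poly.fst (Poly.snd (Poly.snd hc))
  have hs : P (fun s => (c s).2.2.2) := Poly.snd (Poly.snd (Poly.snd hc))
  have fs : ∀ {β : Type} [TEnc β] {f : α → β}, P f → P (fun q : α × ℕ => f q.1) :=
    fun {_} [_] _ h => h.comp (Poly.fst Poly.id)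
  have ft : ∀ {β : Type} [TEnc β] {f : α → β}, P f → P (fun q : α × ℕ × ℚ => f q.1) :=
    fun {_} [_] _ h => h.comp (Poly.fst Poly.id)
  unfold rowsL
  refine Poly.append ?_ (one1 ?_)
  · refine Pool.Agent.NPC.Poly.map (F := fun (s : α) (t : ℕ) => [(0, t, (1 : ℚ)),
      (0, (c s).2.1, cof (c s).2.2.1 t), (a s, t, 1), (a s, (c s).2.1, cof (c s).2.2.1 t)])
      hK.range ?_
    have hcf : P (fun q : α × ℕ => cof (c q.1).2.2.1 q.2) := poly_cof (fs hL) (Poly.snd Poly.id)
    exact Poly.cons (trp (kst 0) (Poly.snd Poly.id) (kst 1))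
      (Poly.cons (trp (kst 0) (fs hp) hcf)
        (Poly.cons (trp (fs ha) (Poly.snd Poly.id) (kst 1)) (one1 (trp (fs ha) (fs hp) hcf))))
  · refine Poly.append (Poly.append (Poly.append ?_ (one1 (trp ha hp hs))) ?_)
      (one1 (trp (Poly.add (kst 1) hr) hp (kst 1)))
    · refine Pool.Agent.NPC.Poly.map (F := fun (s : α) (u : ℕ × ℚ) => (a s, u.1, (1 : ℚ))) hL ?_
      exact trp (ft ha) (Poly.fst (Poly.snd Poly.id)) (kst 1)
    · refine Pool.Agent.NPC.Poly.map (F := fun (s : α) (u : ℕ × ℚ) => (1 + (c s).1, u.1, (1 : ℚ))) hL ?_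
      exact trp (Poly.add (kst 1) (ft hr)) (Poly.fst (Poly.snd Poly.id)) (kst 1)

theorem poly_rowR {c : α → RC} (hc : P c) : P (fun s => rowR (c s)) := by
  have h1 : P (fun s => 1 + (c s).1) := Poly.add (kst 1) (Poly.fst hc)
  have h2 : P (fun s => 1 + (c s).2.1) := Poly.add (kst 1) (Poly.fst (Poly.snd hc))
  have h3 : P (fun s => (c s).2.2.1) := Poly.fst (Poly.snd (Poly.snd hc))
  have h4 : P (fun s => (c s).2.2.2) := Poly.snd (Poly.snd (Poly.snd hc))
  exact Poly.cons (trp h1 h3 (kst 1)) (Poly.cons (trp h1 h4 (kst 1))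
    (Poly.cons (trp h2 h3 (kst 1)) (one1 (trp h2 h4 (kst 1)))))

theorem poly_rws {D K : α → ℕ} {Ls : α → List LC} {Rs : α → List RC} (hD : UPoly D)
    (hK : UPoly K) (hL : P Ls) (hR : P Rs) : P (fun s => rws (D s) (K s) (Ls s) (Rs s)) := by
  have hn : UPoly (fun s => 1 + D s + (Ls s).length) :=
    ((UPoly.const 1).add hD).add (UPoly.length hL)
  unfold rws
  refine Poly.append (Poly.append (Poly.append (Poly.append (poly_rowsU hn hK)
    (poly_rowsP hn hK)) (poly_rowsD hD hK)) ?_) ?_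
  · refine Poly.flatMap (F := fun (s : α) (q : LC × ℕ) => rowsL (K s) q.1 (1 + D s + q.2))
      (Poly.zipIdx hL) ?_
    have hK' : UPoly (fun q : α × LC × ℕ => K q.1) := UPoly.comp hK (Poly.fst Poly.id)
    have hD' : P (fun q : α × LC × ℕ => D q.1) := (UPoly.comp hD (Poly.fst Poly.id)).toPoly
    exact poly_rowsL hK' (Poly.fst (Poly.snd Poly.id))
      (Poly.add (Poly.add (kst 1) hD') (Poly.snd (Poly.snd Poly.id)))
  · refine Pool.Agent.NPC.Poly.map (F := fun (_ : α) (c : RC) => rowR c) hR ?_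
    exact poly_rowR (Poly.snd Poly.id)

theorem poly_inst {R K : α → ℕ} {rows : α → List Row} (hR : UPoly R) (hK : UPoly K)
    (hr : P rows) : P (fun s => inst (R s) (K s) (rows s)) := by
  refine Poly.pair ?_ (Poly.pair hR.toPoly hK.toPoly)
  refine poly_tab (f := fun s i j => cf ((rows s).getD i []) (j / K s) (j % K s))
    (UPoly.length hr) (hR.mul hK) ?_
  have hK' : P (fun q : α × ℕ × ℕ => K q.1) := (UPoly.comp hK (Poly.fst Poly.id)).toPoly
  exact poly_cf (Poly.getD (hr.comp (Poly.fst Poly.id)) (Poly.fst (Poly.snd Poly.id)) (kst []))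
    (Poly.div (Poly.snd (Poly.snd Poly.id)) hK') (Poly.mod (Poly.snd (Poly.snd Poly.id)) hK')

/-! ### The constraints -/

theorem upoly_nv {T : α → List Con} (hT : P T) : UPoly (fun a => (svars (T a)).length) :=
  UPoly.length (H78TSV.poly_svars hT)

theorem poly_ri {T : α → List Con} {i : α → ℕ} (hT : P T) (hi : P i) :
    P (fun a => ri (T a) (i a)) := H612.poly_idxOf (H78TSV.poly_svars hT) hi

theorem poly_pos {T : α → List Con} {t : α → ℕ} (hT : P T) (ht : P t) :
    P (fun a => pos (T a) (t a)) :=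
  Poly.add (Poly.add (kst 1) (upoly_nv hT).toPoly) (Poly.mul (kst 4) ht)

/-- the linear constraints by the code -/
def lcsC (T : List Con) (c : Con) (t : ℕ) : List LC :=
  if c.code.1 = 0 then [(0, 1 + ri T c.code.2.1, [(0, 9 / 8)], 9 / 8)]
  else if c.code.1 = 1 then
    [(0, pos T t, [(1 + ri T c.code.2.1, 1)], 1),
      (0, pos T t + 1, [(1 + ri T c.code.2.2.1, 1)], 1),
      (0, pos T t + 2, [(1 + ri T c.code.2.2.2, 1)], 1),
      (0, pos T t + 2, [(pos T t, 1), (pos T t + 1, 1), (0, -1)], 1)]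
  else
    [(0, pos T t, [(1 + ri T c.code.2.1, 1)], 1),
      (0, pos T t + 1, [(1 + ri T c.code.2.2.1, 1)], 1),
      (0, pos T t + 2, [(1 + ri T c.code.2.2.2, 1)], 1),
      (0, pos T t + 3, [(pos T t, 1), (pos T t + 1, 1), (pos T t + 2, 1), (0, -2)], 1),
      (1 + t, pos T t + 1, [(0, 1)], 1), (1 + t, pos T t + 3, [(pos T t, 1)], 1)]

theorem lcs_eq (T : List Con) (c : Con) (t : ℕ) : lcs T c t = lcsC T c t := by
  cases c <;> rfl

/-- the ratio constraints by the code -/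
def rcsC (T : List Con) (c : Con) (t : ℕ) : List RC :=
  if c.code.1 = 0 then [] else if c.code.1 = 1 then []
  else [(0, 1 + t, 0, pos T t), (0, 1 + t, pos T t + 1, pos T t + 3)]

theorem rcs_eq (T : List Con) (c : Con) (t : ℕ) : rcs T c t = rcsC T c t := by
  cases c <;> rfl

theorem qd {β γ δ ε : Type} [TEnc β] [TEnc γ] [TEnc δ] [TEnc ε] {f : α → β} {g : α → γ}
    {h : α → δ} {k : α → ε} (hf : P f) (hg : P g) (hh : P h) (hk : P k) :
    P (fun a => (f a, g a, h a, k a)) := Poly.pair hf (trp hg hh hk)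

theorem poly_lcs {T : α → List Con} {c : α → Con} {t : α → ℕ} (hT : P T) (hc : P c) (ht : P t) :
    P (fun a => lcs (T a) (c a) (t a)) := by
  have h0 : P (fun a => (c a).code) := poly_con_code hc
  have hi : P (fun a => 1 + ri (T a) (c a).code.2.1) :=
    Poly.add (kst 1) (poly_ri hT (Poly.fst (Poly.snd h0)))
  have hj : P (fun a => 1 + ri (T a) (c a).code.2.2.1) :=
    Poly.add (kst 1) (poly_ri hT (Poly.fst (Poly.snd (Poly.snd h0))))
  have hk : P (fun a => 1 + ri (T a) (c a).code.2.2.2) :=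
    Poly.add (kst 1) (poly_ri hT (Poly.snd (Poly.snd (Poly.snd h0))))
  have hq := poly_pos hT ht
  have hq1 := Poly.add hq (kst 1)
  have hq2 := Poly.add hq (kst 2)
  have hq3 := Poly.add hq (kst 3)
  have h1t : P (fun a => 1 + t a) := Poly.add (kst 1) ht
  have pr : ∀ {f : α → ℕ} {g : ℚ}, P f → P (fun a => (f a, g)) := fun {f} {g} hf =>
    Poly.pair hf (kst g)
  refine Poly.congr (f := fun a => lcsC (T a) (c a) (t a)) ?_ fun a => (lcs_eq _ _ _).symm
  have a1 : P (fun a => ((0, pos (T a) (t a), [(1 + ri (T a) (c a).code.2.1, (1 : ℚ))], (1 : ℚ))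
      : LC)) := qd (kst 0) hq (one1 (pr hi)) (kst 1)
  have a2 : P (fun a => ((0, pos (T a) (t a) + 1, [(1 + ri (T a) (c a).code.2.2.1, (1 : ℚ))],
      (1 : ℚ)) : LC)) := qd (kst 0) hq1 (one1 (pr hj)) (kst 1)
  have a3 : P (fun a => ((0, pos (T a) (t a) + 2, [(1 + ri (T a) (c a).code.2.2.2, (1 : ℚ))],
      (1 : ℚ)) : LC)) := qd (kst 0) hq2 (one1 (pr hk)) (kst 1)
  have a4 : P (fun a => ((0, pos (T a) (t a) + 2, [(pos (T a) (t a), (1 : ℚ)),
      (pos (T a) (t a) + 1, 1), (0, -1)], (1 : ℚ)) : LC)) :=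
    qd (kst 0) hq2 (Poly.cons (pr hq) (Poly.cons (pr hq1) (kst [(0, -1)]))) (kst 1)
  have a5 : P (fun a => ((0, pos (T a) (t a) + 3, [(pos (T a) (t a), (1 : ℚ)),
      (pos (T a) (t a) + 1, 1), (pos (T a) (t a) + 2, 1), (0, -2)], (1 : ℚ)) : LC)) :=
    qd (kst 0) hq3 (Poly.cons (pr hq) (Poly.cons (pr hq1) (Poly.cons (pr hq2)
      (kst [(0, -2)])))) (kst 1)
  have a6 : P (fun a => ((1 + t a, pos (T a) (t a) + 1, [(0, (1 : ℚ))], (1 : ℚ)) : LC)) :=
    qd h1t hq1 (kst [(0, 1)]) (kst 1)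
  have a7 : P (fun a => ((1 + t a, pos (T a) (t a) + 3, [(pos (T a) (t a), (1 : ℚ))], (1 : ℚ))
      : LC)) := qd h1t hq3 (one1 (pr hq)) (kst 1)
  have a0 : P (fun a => ((0, 1 + ri (T a) (c a).code.2.1, [(0, (9 / 8 : ℚ))], (9 / 8 : ℚ))
      : LC)) := qd (kst 0) hi (kst [(0, 9 / 8)]) (kst (9 / 8))
  exact Poly.ite (Poly.decide_eq (Poly.fst h0) (kst 0)) (one1 a0)
    (Poly.ite (Poly.decide_eq (Poly.fst h0) (kst 1))
      (Poly.cons a1 (Poly.cons a2 (Poly.cons a3 (one1 a4))))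
      (Poly.cons a1 (Poly.cons a2 (Poly.cons a3 (Poly.cons a5 (Poly.cons a6 (one1 a7)))))))

theorem poly_rcs {T : α → List Con} {c : α → Con} {t : α → ℕ} (hT : P T) (hc : P c) (ht : P t) :
    P (fun a => rcs (T a) (c a) (t a)) := by
  have h0 : P (fun a => (c a).code) := poly_con_code hc
  have hq := poly_pos hT ht
  have h1t : P (fun a => 1 + t a) := Poly.add (kst 1) ht
  refine Poly.congr (f := fun a => rcsC (T a) (c a) (t a)) ?_ fun a => (rcs_eq _ _ _).symm
  exact Poly.ite (Poly.decide_eq (Poly.fst h0) (kst 0)) (kst [])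
    (Poly.ite (Poly.decide_eq (Poly.fst h0) (kst 1)) (kst [])
      (Poly.cons (qd (kst 0) h1t (kst 0) hq)
        (one1 (qd (kst 0) h1t (Poly.add hq (kst 1)) (Poly.add hq (kst 3))))))

theorem poly_lsys {T : α → List Con} (hT : P T) : P (fun a => lsys (T a)) := by
  unfold lsys
  refine Poly.flatMap (F := fun (a : α) (p : Con × ℕ) => lcs (T a) p.1 p.2) (Poly.zipIdx hT) ?_
  exact poly_lcs (hT.comp (Poly.fst Poly.id)) (Poly.fst (Poly.snd Poly.id))
    (Poly.snd (Poly.snd Poly.id))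

theorem poly_rsys {T : α → List Con} (hT : P T) : P (fun a => rsys (T a)) := by
  unfold rsys
  refine Poly.flatMap (F := fun (a : α) (p : Con × ℕ) => rcs (T a) p.1 p.2) (Poly.zipIdx hT) ?_
  exact poly_rcs (hT.comp (Poly.fst Poly.id)) (Poly.fst (Poly.snd Poly.id))
    (Poly.snd (Poly.snd Poly.id))

end

theorem sg : S_G := by
  have hT : P (fun S : List Con => bsys S) := poly_bsys Pool.Agent.NPC.Poly.id
  have hL := poly_lsys hT
  have hR := poly_rsys hT
  have hD : UPoly (fun S : List Con => nD (bsys S)) := (UPoly.const 1).add (UPoly.length hT)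
  have hnR : UPoly (fun S : List Con => nR (bsys S)) :=
    ((UPoly.const 1).add hD).add (UPoly.length hL)
  have hK : UPoly (fun S : List Con => nK (bsys S)) :=
    (((UPoly.const 1).add (upoly_nv hT)).add ((UPoly.const 4).mul (UPoly.length hT))).add hnR
  exact poly_inst hnR hK (poly_rws hD hK hL hR)

end Pool.Agent.Q230.HD
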