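import Pool.Agent.Q230.HD.Defs

/-!
# Project HD: the statements with their proofs in words
-/

set_option autoImplicit false

namespace Pool.Agent.Q230.HD

open Pool.Agent.NPC Pool.Agent.NPC.ER Matrix

/-- **S_A.** A Hadamard decomposition of the instance gives vectors. Proof. If `rows = []` nothing has
to be shown. Otherwise `width (tab m n f) = n` and `ent (tab m n f) i j = f i j` for `i < m`, `j < n`
(`m > 0`), see `length_tab`, `width_tab`, `ent_tab` in the file Q230/LR/Rk.lean (same definitions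
there, in another namespace). A matrix `A` of rank `k` has a factorization
`A i j = U i ⬝ᵥ V j` with `U i, V j : Fin k → ℝ` (in Q230/LR/Rk.lean, theorem `rk`, this is done
for rank at most 3 with the column space and its basis; the same proof works for `k`). So
`M₁ i j = U i ⬝ᵥ V j`, `M₂ i j = U' i ⬝ᵥ V' j`. For `x ∈ rows` put `α x = U i`, `p x = U' i`, where
`i = rows.idxOf x`, and `β a l = V (a * K + l)`, `q a l = V' (a * K + l)`; note that
`(a * K + l) / K = a` and `(a * K + l) % K = l` for `l < K`. -/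
def S_A : Prop := ∀ (R K : ℕ) (rows : List Row), HDP (inst R K rows) → Dec R K rows

/-- **S_B.** The structure theorem. Proof. For `x ∈ rows` let `T x (u, v) = α x u * p x v`
(`u < R`, `v < K`), and `Y (a, l) (u, v) = β a l u * q a l v`. So
`bv K x a l = ∑_{(u,v)} T x (u,v) * Y (a,l) (u,v)`. Let `e a l = [(a, l, 1)]` (a unit row, in `rows`),
`α_{al} = α (e a l)`, `p_{al} = p (e a l)`, `E (a, l) = T (e a l)`, a square matrix with the index set
`Fin R × Fin K`. As `bv K (e a l)` is the unit vector, `E * Yᵀ = 1`, so `Yᵀ * E = 1`, and for every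
`x ∈ rows`: `T x = ∑_{(a,l)} bv K x a l • E (a, l)` (*) [`T x = T x * Yᵀ * E`].

(1) For `l, l' < K` the row `x = [(a, l, 1), (a, l', 1)]` is in `rows`; if `l ≠ l'` then by (*)
`α x u * p x v = α_{al} u * p_{al} v + α_{al'} u * p_{al'} v` for all `u, v`. The `2 × 2` minors
`X u v * X u' v' - X u v' * X u' v` of the left-hand side are zero, those of the right-hand side are
`(α_{al} u * α_{al'} u' - α_{al} u' * α_{al'} u) * (p_{al} v * p_{al'} v' - p_{al} v' * p_{al'} v)`.
So `α_{al} ∥ α_{al'}` or `p_{al} ∥ p_{al'}`, where `x ∥ y` means `x i * y j = x j * y i` for all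
`i, j`. (2) All `α_{al}`, `p_{al}` are nonzero (`E` is invertible). On nonzero vectors `∥` is an
equivalence relation; and if two equivalence relations cover all pairs then one of them is
universal. So for each `a` all `α_{al}`, `l < K`, are parallel, or all `p_{al}` are parallel.
(3) The second case is impossible: then `p_{al} = t_l • p_{a0}`, `E (a, l) = (t_l • α_{al}) ⊗ p_{a0}`,
and these `K` linearly independent vectors would give `K` linearly independent vectors
`t_l • α_{al}` in `ℝ ^ R`, but `R < K`. (4) So `α_{al} = t_{al} • α_a` with `α_a = α_{a0}`, and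
`E (a, l) = α_a ⊗ p'_{al}` with `p'_{al} = t_{al} • p_{al}`. Let `B a` be the matrix with the columns
`p'_{al}`: `B a v l = p'_{al} v`. It is invertible, as the `E (a, l)`, `l < K`, are independent. The
matrix `A a u = α_a u` (`R × R`) is invertible: if `∑_u A a u * w u = 0` for all `a`, then `E` times
the vector `(u, v) ↦ w u * [v = 0]` is zero, so `w = 0`. Let `A * φ = 1`... (`φ * A = 1` too), i.e.
`∑_u A b u * φ u a = [b = a]`. (5) For `x ∈ rows`, (*) says
`α x u * p x v = ∑_b A b u * (B b *ᵥ bv K x b) v`; multiply by `φ u a` and sum over `u`: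
`(∑_u α x u * φ u a) * p x v = (B a *ᵥ bv K x a) v`. So `Par` holds with the vector `p x`. (Extend
`B` by anything to `ℕ`; a matrix is a unit iff its determinant is, or iff `mulVec` is injective:
`Matrix.mulVec_injective_iff_isUnit`.) -/
def S_B : Prop := ∀ (R K : ℕ) (rows : List Row), 0 < R → R < K → (∀ x ∈ rowsU R K, x ∈ rows) →
  (∀ x ∈ rowsP R K, x ∈ rows) → Dec R K rows → Par R K rows

/-- **S_C.** The converse. Proof. Let `B a *ᵥ bv K x a = s x a • v x` for `x ∈ rows`, `a < R`. The
number of columns is `R * K` (as `rows` is not empty). Let for the row `x` and the column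
`j = a * K + l` (`a = j / K`, `l = j % K`): `M₁ = s x a`, `M₂ = ((B a)⁻¹ *ᵥ v x) l`. Then
`M₁ * M₂ = ((B a)⁻¹ *ᵥ (s x a • v x)) l = bv K x a l`. (`x` should be replaced by the index of the
row; the `j`-th row has `x = rows[i]`.) The ranks: `M₁` is a product of a matrix with `R` columns
and one with `R` rows, `M₂` of one with `K` columns and one with `K` rows, so the ranks are at most
`R` and `K` (`Matrix.rank_mul_le_left`, `Matrix.rank_le_width`). Lower bounds: for the unit row
`x = [(a, 0, 1)]`: `B a' *ᵥ 0 = 0` for `a' ≠ a` and `B a *ᵥ e_0 ≠ 0`, so `v x ≠ 0`, `s x a ≠ 0`,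
`s x a' = 0`. So the `R × R` submatrix of `M₁` with these rows and the columns `a' * K` is diagonal
with nonzero diagonal. For the unit rows `x = [(0, l, 1)]`: `s x 0 ≠ 0` and
`(B 0)⁻¹ *ᵥ v x = (s x 0)⁻¹ • e_l`: so the `K × K` submatrix of `M₂` with these rows and the columns
`l'` (`l' < K`) is diagonal with nonzero diagonal. -/
def S_C : Prop := ∀ (R K : ℕ) (rows : List Row), 0 < R → 0 < K → (∀ x ∈ rowsU R K, x ∈ rows) →
  Par R K rows → HDP (inst R K rows)

/-- **S_D.** Proof. Let `B` be as in `Par`, `R = 1 + D + Ls.length`. (1) `rowsD`: for `x = [(0, t, 1),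
(1 + r, t, 1)]` we have `B 0 *ᵥ e_t = s₀ • v`, `B (1 + r) *ᵥ e_t = s₁ • v`; both are nonzero, so
`B (1 + r) *ᵥ e_t = m r t • (B 0 *ᵥ e_t)` with `m r t = s₁ / s₀ ≠ 0`. (For `t ≥ K` or `r ≥ D` put
anything.) (2) Let `c = (r, p, L, s)` be the linear constraint with the number `i`,
`a = 1 + D + i`, `c_t = cof L t`, `f_t = e_t + c_t e_p` for `t ≠ p`, `f_p = e_p` (that is
`bv K x 0 = bv K x a` for the row `x` with the number `t` of `rowsL K c a`). As in (1),
`B a *ᵥ f_t = μ_t • (B 0 *ᵥ f_t)`. The last row `x` of `rowsL K c a` has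
`bv K x a = ∑_{t ∈ F} e_t + s e_p = ∑_{t ∈ F} f_t` and `bv K x (1 + r) = ∑_{t ∈ F} e_t + e_p`, where
`F` is the set of the first components of `L` (`p ∉ F`, no duplicates, `s` is the sum of the `c_t`).
So `B 0 *ᵥ (∑_{t ∈ F} μ_t f_t) = s₀ • v` and `B 0 *ᵥ (∑_{t ∈ F} m r t • e_t + m r p • e_p) = s₁ • v`,
with `s₀, s₁ ≠ 0` as `B a` and `B (1 + r)` are invertible and `F` is not empty. As `B 0` is
injective, `s₁ • ∑_{t ∈ F} μ_t f_t = s₀ • (∑_{t ∈ F} m r t • e_t + m r p • e_p)`. The coordinates
`t ∈ F`: `s₁ μ_t = s₀ m r t`; the coordinate `p`: `s₁ ∑ c_t μ_t = s₀ m r p`. So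
`m r p = ∑ c_t m r t`. (3) `rowR (r, r', i, j)`: if `r = r'` the equation is trivial. Otherwise
`B 0 *ᵥ (m r i • e_i + m r j • e_j) = s₀ • v` and `B 0 *ᵥ (m r' i • e_i + m r' j • e_j) = s₁ • v`
(nonzero), so `s₁ • (m r i, m r j) = s₀ • (m r' i, m r' j)`. -/
def S_D : Prop := ∀ (D K : ℕ) (Ls : List LC) (Rs : List RC), (∀ c ∈ Ls, LOK D K c) →
  (∀ c ∈ Rs, ROK D K c) → Par (1 + D + Ls.length) K (rws D K Ls Rs) → Prob D K Ls Rs

/-- **S_E.** Proof. Let `B 0 = 1`, `B (1 + r) = diagonal (m r)` for `r < D`, and for the constraint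
`c = (r, p, L, s)` with the number `i`, `a = 1 + D + i`: the entry `(u, t)` of `B a` is
`(if u = t then m r t else 0) + (if u = p then cof L t * (m r t - m r p) else 0)`. It is invertible:
if `B a *ᵥ y = 0`, the coordinates `u ≠ p` give `m r u * y u = 0`, so `y u = 0`; the coordinate `p`
then gives `m r p * y p = 0` (the term with `t = p` has the factor `m r p - m r p`). The rows: in
`rowsU` and `rowsP` only one block `a` is not zero: take `v = B a *ᵥ bv K x a`. `rowsD`:
`v = e_t`, `B 0 *ᵥ e_t = e_t`, `B (1 + r) *ᵥ e_t = m r t • e_t`. `rowsL`, the row with the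
number `t`: the blocks `0` and `a` are `f_t = e_t + c_t e_p` (`f_p = e_p`), and
`B a *ᵥ f_t = m r t • f_t`; take `v = f_t`. The last row: the block `a` is `∑_{t ∈ F} f_t`, which
is mapped to `∑_{t ∈ F} m r t • f_t = ∑_{t ∈ F} m r t • e_t + (∑ c_t m r t) • e_p`, and the block
`1 + r` is `∑_{t ∈ F} e_t + e_p`, which is mapped to `∑_{t ∈ F} m r t • e_t + m r p • e_p`: the same.
`rowR (r, r', i, j)`: the block `1 + r` is mapped to `m r i • e_i + m r j • e_j =: v`, the block
`1 + r'` to `m r' i • e_i + m r' j • e_j = (m r' i / m r i) • v`. All the other blocks are zero. -/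
def S_E : Prop := ∀ (D K : ℕ) (Ls : List LC) (Rs : List RC), (∀ c ∈ Ls, LOK D K c) →
  (∀ c ∈ Rs, ROK D K c) → Prob D K Ls Rs → Par (1 + D + Ls.length) K (rws D K Ls Rs)

/-- **S_F.** Systems. The first two parts (validity): check every case; `ri T i < (svars T).length`
for the variables `i` of the constraints (`mem_svars`, `List.idxOf_lt_length_iff`), and
`pos T t + 4 ≤ pos T T.length ≤ nK T` for `t < T.length`.

(→) Let `T = bsys S`. By `bsys_of_sat` there is `w` with `|w i| ≤ 1/8` and `c.HoldsC (1/8) w` for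
`c ∈ T`. Let `X i = 1 + w i` (nonzero). The register `0`: `m 0 0 = 1`, `m 0 (1 + j) = X (svars T)[j]`
for `j < (svars T).length`, `m 0 (pos T t + 0, 1, 2) = X i, X j, X k`, `m 0 (pos T t + 3) = X i * X j`
for the `t`-th constraint `add i j k` or `mul i j k`, all others are `1`. The register `1 + t`:
`m (1 + t) (pos T t) = m (1 + t) (pos T t + 3) = X i`, all others are `1`. (A coordinate
`z ≥ pos T 0` is `pos T t + d` with `t = (z - pos T 0) / 4`, `d = (z - pos T 0) % 4`.) The
constraints: `one i`: `1 + w i = 9/8`. `add`: copies; `X k = X i + X j - 1`. `mul`: copies;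
`X i * X j = X i + X j + X k - 2`, as `w i * w j = w k`; `m (1 + t) (pos T t + 1) = 1 =
m (1 + t) 0`; `m (1 + t) (pos T t + 3) = m (1 + t) (pos T t)`; the ratios: `1 * X i = X i * 1` and
`X j * X i = (X i * X j) * 1`. (`ri T i` is an index with `(svars T)[ri T i] = i`.)

(←) Let `u = m 0 0 ≠ 0`, `w i = m 0 (1 + ri T i) / u - 1`. Then `c.HoldsC (1/8) w` for `c ∈ T`:
`one i`: `m 0 (1 + ri T i) = 9/8 * u`. `add`: `m 0 (1 + ri T k) = m 0 (1 + ri T i) +
m 0 (1 + ri T j) - u`. `mul`: let `x, y, z, P` be the values of `m 0` at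
`pos T t + 0, 1, 2, 3`, and `h = m (1 + t) 0 ≠ 0`. `u * m (1+t) (pos T t) = x * h`;
`y * m (1+t) (pos T t + 3) = P * m (1+t) (pos T t + 1)`, `m (1+t) (pos T t + 1) = h`,
`m (1+t) (pos T t + 3) = m (1+t) (pos T t)`. So `y * x * h = u * P * h`, `x * y = u * P`, and
`P = x + y + z - 2 u`. So `(x/u - 1) (y/u - 1) = z/u - 1`. Then `sat_of_bsys`. -/
def S_F : Prop :=
  (∀ T : List Con, (∀ c ∈ lsys T, LOK (nD T) (nK T) c) ∧ ∀ c ∈ rsys T, ROK (nD T) (nK T) c) ∧
  ∀ S : List Con, Sat S ↔
    Prob (nD (bsys S)) (nK (bsys S)) (lsys (bsys S)) (rsys (bsys S))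

/-- **S_G.** Polynomial time. -/
def S_G : Prop := Pool.Agent.NPC.Poly red

end Pool.Agent.Q230.HD
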